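import Pool.Agent.TH192.MU.Uni

set_option autoImplicit false

/-! # Topological zeta functions of the forms over products of determinantal ideals

Let `x` be the generic matrix of one of the three spaces `S` of matrices: all `m × n` matrices, the
symmetric `n × n` matrices, the skew symmetric `n × n` matrices (`MSpace`). Let the `M_j` be the
products of one `p t`-minor of `x` (one Pfaffian of size `2 (p t)` in the skew symmetric case) for
each `t < T`, where `p t < min (m, n)`, `p t < n`, or `2 (p t) + 1 < n` (`Small`), and let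
`F = ∑_j y_j M_j(x)` with further variables `y_j` (`detUniv`, with integral coefficients).

The topological zeta function is defined as by Denef and Loeser, from the motivic zeta function
`Z_mot(T) = ∑_d [X_d] 𝕃 ^ (-n d) T ^ d` in `𝓜[[T]]`, `X_d` the `d`-jets on which `F` has the order `d`
(`zetaM F Set.univ {c | c ≠ 0}`), `𝓜` the Grothendieck ring of complex varieties, localised at `𝕃`:
`Z_top(s) = χ(Z_mot(𝕃 ^ (-s)))` for `s = 1, 2, 3, …`. For this, let `E` be a homomorphism from `𝓜` to a
domain `R` with `E(𝕃) ≠ 1`, such as the Hodge-Deligne polynomial `E(u, v)`, and `ε` a homomorphism from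
`R` to `ℂ` with `ε(E(𝕃)) = 1`, such as `u, v ↦ 1`, so that `ε ∘ E` is the Euler characteristic `χ`
(`IsTopZeta`).

No resolution is used: the motivic zeta function is in the ring generated by `T` and the
`(𝕃 - 1) / (1 - 𝕃 ^ (-ν) T ^ N)`, where the pairs `(-ν, N)` are the `(-ν_d, N_d)` and `(-1, 1)`,
`ν_d` the codimension of the matrices of rank `≤ d` (`≤ 2 d`), `N_d = ∑ t, max (p t - d, 0)`. The
factors `𝕃 - 1` come from the scaling of the matrices. -/

namespace Pool.Agent.Results.MP_504089_ag.DeterminantalForms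

open MvPolynomial Pool.Agent.H628R4.TP Pool.Agent.TH192.DT Pool.Agent.TH192.MT
  Pool.Agent.TH192.MU Pool.Agent.W428.MOT

/-- **The strong monodromy conjecture for the topological zeta function of `F = ∑ y_j M_j`**, the
`M_j` the products of one minor (Pfaffian) of size `p t` of a generic, symmetric or skew symmetric
matrix for each `t`. There is exactly one rational function `Z` with
`Z(s) = ε(E(Z_mot(𝕃 ^ (-s))))` for `s = 1, 2, 3, …`; each of its poles is `-1` or one of the
`-ν_d / N_d` and is a root of every `b` with `b(s) F ^ s = P(s) F ^ (s + 1)`, in particular of the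
Bernstein-Sato polynomial of `F`. -/
theorem result (S : MSpace) (T : ℕ) (p : Fin T → ℕ) (hp : ∀ t, S.Small (p t))
    (R : Type) [CommRing R] [IsDomain R] (E : MK ℂ →+* R) (ε : R →+* ℂ)
    (hε : ε (E ((Lu ℂ : (MK ℂ)ˣ) : MK ℂ)) = 1) (hE : E ((Lu ℂ : (MK ℂ)ˣ) : MK ℂ) ≠ 1) :
    ∃ Z : RatFunc ℂ,
      IsTopZeta E ε (zetaM (map (Int.castRingHom ℂ) (detUniv S p)) Set.univ {c | c ≠ 0}) Z ∧
      (∀ Z', IsTopZeta E ε
        (zetaM (map (Int.castRingHom ℂ) (detUniv S p)) Set.univ {c | c ≠ 0}) Z' → Z' = Z) ∧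
      ∀ s₀ : ℂ, Z.denom.eval s₀ = 0 →
        (∃ q ∈ univPairs S p, s₀ = (q.1 : ℂ) / q.2) ∧
        ∀ b : Polynomial ℂ, IsBFunction (map (Int.castRingHom ℂ) (detUniv S p)) b →
          b.eval s₀ = 0 := by
  obtain ⟨Z, h1, h2, h3⟩ := univ_top S T p hp Constr.univ E ε hε hE
  refine ⟨Z, h1, h2, fun s₀ hs => ?_⟩
  obtain ⟨q, hq, rfl⟩ := h3 s₀ hs
  exact ⟨⟨q, hq, rfl⟩, (univ_roots S T p hp q hq).2.2.1⟩

end Pool.Agent.Results.MP_504089_ag.DeterminantalForms
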